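import Pool.Agent.helper66.LIN.Spec

set_option autoImplicit false

namespace LSH.Lin

theorem MAN_gad (hGUP : GUP_stmt) (hGDN : GDN_stmt) (P : Finset Pt) (L : Multiset (Pt × BT)) (σ : ℝ → ℝ)
    (X : ℝ) (u : Pt) (t : BT) (up : Bool) (x₁ : ℝ) (q : Pt) (hC : Cfg P L σ X) (hu : (u, t) ∈ L)
    (hch : Choice P L σ X u t up x₁ q) : ∃ G : GT, Gad u t (avs P L σ u up x₁) G := by
  classical
  have hsub : ∀ z ∈ avs P L σ u up x₁, z ∈ P ∧ u.1 < z.1 ∧
      ((up = true ∧ u.2 < z.2) ∨ (up = false ∧ z.2 < u.2)) := by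
    intro z hz
    unfold avs at hz
    rw [Finset.mem_filter] at hz
    obtain ⟨h1, h2, h3, h4, h5⟩ := hz
    exact ⟨h1, lt_of_le_of_lt (hC.vis (u, t) hu z.2 h4) h2, h5⟩
  have hgen : Gen (insert u ((avs P L σ u up x₁ : Finset Pt) : Set Pt)) := by
    have h := hC.gen
    have hs : insert u ((avs P L σ u up x₁ : Finset Pt) : Set Pt) ⊆ (P : Set Pt) := by
      intro z hz
      rcases hz with hz | hz
      · rw [hz]
        exact hC.mem (u, t) hu
      · exact (hsub z hz).1
    intro a ha b hb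
    exact h a (hs ha) b (hs hb)
  cases up with
  | true =>
    refine hGUP u t _ hgen (fun z hz => ?_) hch.big
    obtain ⟨h1, h2, h3⟩ := hsub z hz
    rcases h3 with h3 | h3
    · exact ⟨h2, h3.2⟩
    · exact absurd h3.1 (by decide)
  | false =>
    refine hGDN u t _ hgen (fun z hz => ?_) hch.big
    obtain ⟨h1, h2, h3⟩ := hsub z hz
    rcases h3 with h3 | h3
    · exact absurd h3.1 (by decide)
    · exact ⟨h2, h3.2⟩

theorem MAN (hCHO : CHO_stmt) (hGUP : GUP_stmt) (hGDN : GDN_stmt) (hNCF : NCF_stmt)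
    (hPLG : PLG_stmt) (hGTF : GTF_stmt) : MAN_stmt := by
  intro N
  induction N with
  | zero =>
    intro P L σ X hs hC
    have h0 : L = 0 := by
      by_contra hne
      obtain ⟨i, hi⟩ := Multiset.exists_mem_of_ne_zero hne
      have h1 : i.2.size ≤ (L.map (fun i => i.2.size)).sum :=
        Multiset.single_le_sum (fun _ _ => Nat.zero_le _) _ (Multiset.mem_map_of_mem _ hi)
      have h2 := (hGTF.2.2.2.2.2.2.2 i.2).2.2.2.2
      omega
    subst h0
    exact ⟨fun _ => .leaf (0, 0), by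
      constructor <;> intro i hi <;> exact absurd hi (Multiset.notMem_zero _)⟩
  | succ N ih =>
    intro P L σ X hs hC
    by_cases h0 : L = 0
    · subst h0
      exact ⟨fun _ => .leaf (0, 0), by
        constructor <;> intro i hi <;> exact absurd hi (Multiset.notMem_zero _)⟩
    · obtain ⟨u, t, up, x₁, q, hu, hch⟩ := hCHO P L σ X hC h0
      obtain ⟨G, hG⟩ := MAN_gad hGUP hGDN P L σ X u t up x₁ q hC hu hch
      obtain ⟨L₀, hL⟩ := Multiset.exists_cons_of_mem hu
      subst hL
      have hst : Step P L₀ σ X u t up x₁ q G := ⟨hC, hch, hG⟩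
      have hcfg := hNCF P L₀ σ X u t up x₁ q G hst
      have hsz : ((L₀ + G.pend).map (fun i => i.2.size)).sum ≤ N := by
        have h1 := hGTF.2.2.2.2.2.1 G
        rw [hG.shape] at h1
        rw [Multiset.map_cons, Multiset.sum_cons] at hs
        rw [Multiset.map_add, Multiset.sum_add]
        have h2 : (u, t).2.size = t.size := rfl
        omega
      obtain ⟨D, hD⟩ := ih P _ _ _ hsz hcfg
      exact hPLG P L₀ σ X u t up x₁ q G D hst hD

end LSH.Lin
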